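import Pool.Agent.Helper24.IA.St

set_option autoImplicit false

namespace Pool.Agent.Helper24.IA

open Finset
open Pool.Agent.Helper93.IA

theorem hIN1 : StIN1 := by
  intro O I J K D
  refine ⟨?_, ?_, ?_⟩
  · intro t t' h
    cases t <;> cases t' <;> simp_all [eA, tA]
  · intro t t' h
    cases t <;> cases t' <;> simp_all [eB, tA]
  · intro t t' h
    cases t <;> cases t' <;> simp_all [eC, tA]

theorem hIN2 : StIN2 := by
  intro O I J K D
  refine ⟨?_, ?_, ?_⟩
  · intro t t' h
    cases t <;> cases t' <;> simp_all [eA, tB]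
    exact D.iA _ _ h.1 h.2
  · intro t t' h
    cases t <;> cases t' <;> simp_all [eB, tB]
    exact D.iB _ _ h.1 h.2
  · intro t t' h
    cases t <;> cases t' <;> simp_all [eC, tB]
    exact D.iC _ _ h.1 h.2

end Pool.Agent.Helper24.IA
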