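import Pool.Agent.Helper24.IA.Asm
import Pool.Agent.Helper24.IA.M_IN1
import Pool.Agent.Helper16.IA24.M_PAI
import Pool.Agent.Helper95.IA24.M_EMB
import Pool.Agent.Helper10.IA24.M_CHO
import Pool.Agent.Helper72.IA24.M_IMG

/-! Project IA part A: the absorbers lemma, assembled. -/

namespace Pool.Agent.Helper24.IA

theorem hABS : Pool.Agent.Helper93.IA.StABS :=
  hABS0 Pool.Agent.Helper16.IA24.hPAI
    (Pool.Agent.Helper10.IA24.hCHO Pool.Agent.Helper95.IA24.hEMB) hIN1 hIN2
    Pool.Agent.Helper72.IA24.hIMG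

end Pool.Agent.Helper24.IA
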