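import Pool.Agent.Helper24.IA.St

set_option autoImplicit false

namespace Pool.Agent.Helper24.IA

open Finset
open Pool.Agent.Helper93.IA

private lemma dec_inj {n : ℕ} {τ : Type} [Fintype τ] [DecidableEq τ]
    (T : τ → Fin n × Fin n × Fin n) (h1 : Function.Injective fun t => eA (T t))
    (h2 : Function.Injective fun t => eB (T t)) (h3 : Function.Injective fun t => eC (T t)) :
    Dec (univ.image fun t => eA (T t)) (univ.image fun t => eB (T t))
      (univ.image fun t => eC (T t)) := by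
  refine ⟨univ.image T, ⟨?_, ?_, ?_, ?_, ?_, ?_⟩, ?_, ?_, ?_⟩
  · intro x hx
    obtain ⟨t, _, rfl⟩ := mem_image.1 hx
    exact mem_image_of_mem _ (mem_univ t)
  · intro x hx
    obtain ⟨t, _, rfl⟩ := mem_image.1 hx
    exact mem_image_of_mem _ (mem_univ t)
  · intro x hx
    obtain ⟨t, _, rfl⟩ := mem_image.1 hx
    exact mem_image_of_mem _ (mem_univ t)
  · intro x hx y hy h
    obtain ⟨t, _, rfl⟩ := mem_image.1 hx
    obtain ⟨t', _, rfl⟩ := mem_image.1 hy
    rw [h1 h]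
  · intro x hx y hy h
    obtain ⟨t, _, rfl⟩ := mem_image.1 hx
    obtain ⟨t', _, rfl⟩ := mem_image.1 hy
    rw [h2 h]
  · intro x hx y hy h
    obtain ⟨t, _, rfl⟩ := mem_image.1 hx
    obtain ⟨t', _, rfl⟩ := mem_image.1 hy
    rw [h3 h]
  · rw [image_image]
    rfl
  · rw [image_image]
    rfl
  · rw [image_image]
    rfl

private lemma un {n : ℕ} {W τ₁ τ₂ ι : Type} [Fintype τ₁] [Fintype τ₂] (m : W → Fin n × Fin n)
    (u : τ₁ → W) (v : τ₂ → W) (w : ι → W)
    (h : ∀ e, (∃ t, v t = e) ↔ (∃ t, u t = e) ∨ ∃ i, e = w i) (L : Finset (Fin n × Fin n))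
    (hL : ∀ e, e ∈ L ↔ ∃ i, m (w i) = e) :
    univ.image (fun t => m (u t)) ∪ L = univ.image (fun t => m (v t)) := by
  ext e
  rw [mem_union, mem_image, mem_image, hL]
  constructor
  · rintro (⟨t, _, rfl⟩ | ⟨i, rfl⟩)
    · obtain ⟨t', ht'⟩ := (h (u t)).2 (Or.inl ⟨t, rfl⟩)
      exact ⟨t', mem_univ _, by rw [ht']⟩
    · obtain ⟨t', ht'⟩ := (h (w i)).2 (Or.inr ⟨i, rfl⟩)
      exact ⟨t', mem_univ _, by rw [ht']⟩
  · rintro ⟨t, _, rfl⟩
    rcases (h (v t)).1 ⟨t, rfl⟩ with ⟨t', ht'⟩ | ⟨i, hi⟩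
    · exact Or.inl ⟨t', mem_univ _, by rw [ht']⟩
    · exact Or.inr ⟨i, by rw [hi]⟩

private lemma newA {O I J K : Type} (D : Dt O I J K) (t : Ta I J K) :
    (∃ v, (tA D t).1 = nw v) ∨ ∃ v, (tA D t).2.1 = nw v := by
  cases t <;> simp [tA]

private lemma newB {O I J K : Type} (D : Dt O I J K) (t : Ta I J K) :
    (∃ v, (tA D t).2.1 = nw v) ∨ ∃ v, (tA D t).2.2 = nw v := by
  cases t <;> simp [tA]

private lemma newC {O I J K : Type} (D : Dt O I J K) (t : Ta I J K) :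
    (∃ v, (tA D t).2.2 = nw v) ∨ ∃ v, (tA D t).1 = nw v := by
  cases t <;> simp [tA]

theorem hABS0 (hPAI : StPAI) (hCHO : StCHO) (hIN1 : StIN1) (hIN2 : StIN2) (hIMG : StIMG) :
    StABS := by
  intro n d A B C LA LB LC F hd hbal hFA hFB hFC hn
  obtain ⟨hb1, hb2, hb3⟩ := hbal
  obtain ⟨R, hR⟩ := hPAI n LA LC hb1
  obtain ⟨Q, hQ⟩ := hPAI n LB LA hb2
  obtain ⟨S, hS⟩ := hPAI n LC LB hb3
  obtain ⟨D, hD1, hD2, hD3, hD4, hD5, hD6⟩ : ∃ D : Dt {x // x ∈ F} {e // e ∈ LA} {e // e ∈ LB}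
      {e // e ∈ LC}, (∀ i, (D.rA i).1 = i.1.1) ∧ (∀ i, (D.cA i).1 = i.1.2) ∧
        (∀ i, (D.cB i).1 = i.1.1) ∧ (∀ i, (D.sB i).1 = i.1.2) ∧
        (∀ i, (D.sC i).1 = i.1.1) ∧ (∀ i, (D.rC i).1 = i.1.2) :=
    ⟨{ rA := fun i => ⟨i.1.1, (hFA _ i.2).1⟩
       cA := fun i => ⟨i.1.2, (hFA _ i.2).2⟩
       cB := fun i => ⟨i.1.1, (hFB _ i.2).1⟩
       sB := fun i => ⟨i.1.2, (hFB _ i.2).2⟩
       sC := fun i => ⟨i.1.1, (hFC _ i.2).1⟩
       rC := fun i => ⟨i.1.2, (hFC _ i.2).2⟩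
       R := R
       Q := Q
       S := S
       hR := fun i => Subtype.ext (hR i)
       hQ := fun i => Subtype.ext (hQ i)
       hS := fun i => Subtype.ext (hS i)
       iA := fun i i' h1 h2 => Subtype.ext (Prod.ext (congrArg Subtype.val h1)
         (congrArg Subtype.val h2))
       iB := fun i i' h1 h2 => Subtype.ext (Prod.ext (congrArg Subtype.val h1)
         (congrArg Subtype.val h2))
       iC := fun i i' h1 h2 => Subtype.ext (Prod.ext (congrArg Subtype.val h1)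
         (congrArg Subtype.val h2)) },
      fun _ => rfl, fun _ => rfl, fun _ => rfl, fun _ => rfl, fun _ => rfl, fun _ => rfl⟩
  have cI : Fintype.card {e // e ∈ LA} = LA.card := Fintype.card_coe LA
  have cJ : Fintype.card {e // e ∈ LB} = LA.card := by rw [Fintype.card_congr Q, cI]
  have cK : Fintype.card {e // e ∈ LC} = LA.card := by rw [← Fintype.card_congr R, cI]
  obtain ⟨g, ginj, gF, gadj⟩ := hCHO _ _ _ n d A B C F D hd (by omega) (by
    rw [cI, cJ, cK]; omega)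
  have hlab : Function.Injective (lab g : Wx {x // x ∈ F} _ _ _ → Fin n) := by
    rintro (a | a) (b | b) h
    · rw [show a = b from Subtype.ext h]
    · exact absurd (show g b ∈ F by
        have h2 : a.1 = g b := h
        rw [← h2]; exact a.2) (gF b)
    · exact absurd (show g a ∈ F by
        have h2 : g a = b.1 := h
        rw [h2]; exact b.2) (gF a)
    · rw [ginj h]
  obtain ⟨m, hm⟩ : ∃ m : Wx {x // x ∈ F} {e // e ∈ LA} {e // e ∈ LB} {e // e ∈ LC} ×
      Wx {x // x ∈ F} {e // e ∈ LA} {e // e ∈ LB} {e // e ∈ LC} → Fin n × Fin n,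
      m = fun p => (lab g p.1, lab g p.2) := ⟨_, rfl⟩
  have minj : Function.Injective m := by
    intro p q h
    rw [hm] at h
    exact Prod.ext (hlab (congrArg Prod.fst h)) (hlab (congrArg Prod.snd h))
  have mA : ∀ T, eA (lb3 g T) = m (eA T) := by intro T; rw [hm]; rfl
  have mB : ∀ T, eB (lb3 g T) = m (eB T) := by intro T; rw [hm]; rfl
  have mC : ∀ T, eC (lb3 g T) = m (eC T) := by intro T; rw [hm]; rfl
  obtain ⟨i1, i2, i3⟩ := hIN1 _ _ _ _ D
  obtain ⟨j1, j2, j3⟩ := hIN2 _ _ _ _ D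
  obtain ⟨m1, m2, m3⟩ := hIMG _ _ _ _ D
  have hin : ∀ w : Wx {x // x ∈ F} {e // e ∈ LA} {e // e ∈ LB} {e // e ∈ LC},
      lab g w ∈ univ.image g ∪ F := by
    rintro (a | a)
    · exact mem_union_right _ a.2
    · exact mem_union_left _ (mem_image_of_mem _ (mem_univ a))
  have hnw : ∀ w : Wx {x // x ∈ F} {e // e ∈ LA} {e // e ∈ LB} {e // e ∈ LC},
      (∃ v, w = nw v) → lab g w ∈ univ.image g := by
    rintro _ ⟨v, rfl⟩
    exact mem_image_of_mem _ (mem_univ v)
  have cTa : Fintype.card (Ta {e // e ∈ LA} {e // e ∈ LB} {e // e ∈ LC}) = 12 * LA.card := by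
    rw [card_Ta, cI, cJ, cK]; ring
  refine ⟨univ.image fun t => eA (lb3 g (tA D t)), univ.image fun t => eB (lb3 g (tA D t)),
    univ.image fun t => eC (lb3 g (tA D t)), univ.image g, ?_, ?_, ?_, ?_, ?_, ?_, ?_, ?_, ?_, ?_, ?_⟩
  · intro e he
    obtain ⟨t, _, rfl⟩ := mem_image.1 he
    exact (gadj t).1
  · intro e he
    obtain ⟨t, _, rfl⟩ := mem_image.1 he
    exact (gadj t).2.1
  · intro e he
    obtain ⟨t, _, rfl⟩ := mem_image.1 he
    exact (gadj t).2.2
  · rw [disjoint_left]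
    intro a ha
    obtain ⟨v, _, rfl⟩ := mem_image.1 ha
    exact gF v
  · refine card_image_le.trans ?_
    rw [card_univ, card_Vx, cI, cJ, cK]
    omega
  · intro e he
    obtain ⟨t, _, rfl⟩ := mem_image.1 he
    exact ⟨(newA D t).imp (hnw _) (hnw _), hin _, hin _⟩
  · intro e he
    obtain ⟨t, _, rfl⟩ := mem_image.1 he
    exact ⟨(newB D t).imp (hnw _) (hnw _), hin _, hin _⟩
  · intro e he
    obtain ⟨t, _, rfl⟩ := mem_image.1 he
    exact ⟨(newC D t).imp (hnw _) (hnw _), hin _, hin _⟩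
  · have e1 : (univ.image fun t => eA (lb3 g (tA D t))).card ≤ 12 * LA.card := by
      rw [← cTa]; exact card_image_le
    have e2 : (univ.image fun t => eB (lb3 g (tA D t))).card ≤ 12 * LA.card := by
      rw [← cTa]; exact card_image_le
    have e3 : (univ.image fun t => eC (lb3 g (tA D t))).card ≤ 12 * LA.card := by
      rw [← cTa]; exact card_image_le
    omega
  · refine dec_inj (fun t => lb3 g (tA D t)) ?_ ?_ ?_
    · simp only [mA]; exact minj.comp i1
    · simp only [mB]; exact minj.comp i2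
    · simp only [mC]; exact minj.comp i3
  · have u1 := un m _ _ _ m1 LA (by
      intro e
      rw [hm]
      constructor
      · intro he
        exact ⟨⟨e, he⟩, Prod.ext (hD1 ⟨e, he⟩) (hD2 ⟨e, he⟩)⟩
      · rintro ⟨i, rfl⟩
        have h3 : (lab g (ol (D.rA i)), lab g (ol (D.cA i))) = i.1 := Prod.ext (hD1 i) (hD2 i)
        show (lab g (ol (D.rA i)), lab g (ol (D.cA i))) ∈ LA
        rw [h3]
        exact i.2)
    have u2 := un m _ _ _ m2 LB (by
      intro e
      rw [hm]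
      constructor
      · intro he
        exact ⟨⟨e, he⟩, Prod.ext (hD3 ⟨e, he⟩) (hD4 ⟨e, he⟩)⟩
      · rintro ⟨i, rfl⟩
        have h3 : (lab g (ol (D.cB i)), lab g (ol (D.sB i))) = i.1 := Prod.ext (hD3 i) (hD4 i)
        show (lab g (ol (D.cB i)), lab g (ol (D.sB i))) ∈ LB
        rw [h3]
        exact i.2)
    have u3 := un m _ _ _ m3 LC (by
      intro e
      rw [hm]
      constructor
      · intro he
        exact ⟨⟨e, he⟩, Prod.ext (hD5 ⟨e, he⟩) (hD6 ⟨e, he⟩)⟩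
      · rintro ⟨i, rfl⟩
        have h3 : (lab g (ol (D.sC i)), lab g (ol (D.rC i))) = i.1 := Prod.ext (hD5 i) (hD6 i)
        show (lab g (ol (D.sC i)), lab g (ol (D.rC i))) ∈ LC
        rw [h3]
        exact i.2)
    simp only [mA, mB, mC]
    rw [u1, u2, u3]
    have h4 := dec_inj (fun t => lb3 g (tB D t)) (by simp only [mA]; exact minj.comp j1)
      (by simp only [mB]; exact minj.comp j2) (by simp only [mC]; exact minj.comp j3)
    simp only [mA, mB, mC] at h4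
    exact h4

end Pool.Agent.Helper24.IA
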