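import Pool.Agent.Helper93.IA.St0

/-!
# Project IA (MP_953b28_co), part A: absorbers.  Definitions

`O`: old vertices; `I`, `J`, `K`: the edges of the graph `L` (`LA ⊆ rows × columns`, `LB ⊆ columns × symbols`,
`LC ⊆ symbols × rows`).  `Vx I J K`: the new vertices.  `Ta`: the triangles of the first decomposition (of the absorber),
`Tb`: the triangles of the second decomposition (of absorber and `L`).
-/

set_option autoImplicit false

namespace Pool.Agent.Helper24.IA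

open Finset
open Pool.Agent.Helper93.IA

/-- The graph `L`: end points of the edges, and the pairing of the edges at rows (`R`), columns (`Q`), symbols (`S`). -/
structure Dt (O I J K : Type) where
  rA : I → O
  cA : I → O
  cB : J → O
  sB : J → O
  sC : K → O
  rC : K → O
  R : I ≃ K
  Q : J ≃ I
  S : K ≃ J
  hR : ∀ i, rC (R i) = rA i
  hQ : ∀ j, cA (Q j) = cB j
  hS : ∀ k, sB (S k) = sC k
  iA : ∀ i i', rA i = rA i' → cA i = cA i' → i = i'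
  iB : ∀ j j', cB j = cB j' → sB j = sB j' → j = j'
  iC : ∀ k k', sC k = sC k' → rC k = rC k' → k = k'

/-- The new vertices: the row `x0`; columns `y i`, symbols `z i` (the target triangles are `(x0, y i, z i)`); third vertices
`wA i` (symbol), `wB j` (row), `wC k` (column) of the edges; gadgets at rows (`pR i` column, `qR i` symbol), at columns
(`pC j` symbol, `qC j` row), at symbols (`pS k` row, `qS k` column). -/
inductive Vx (I J K : Type) : Type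
  | x0 : Vx I J K
  | y (i : I) : Vx I J K
  | z (i : I) : Vx I J K
  | wA (i : I) : Vx I J K
  | wB (j : J) : Vx I J K
  | wC (k : K) : Vx I J K
  | pR (i : I) : Vx I J K
  | qR (i : I) : Vx I J K
  | pC (j : J) : Vx I J K
  | qC (j : J) : Vx I J K
  | pS (k : K) : Vx I J K
  | qS (k : K) : Vx I J K
  deriving DecidableEq

/-- The triangles of the first decomposition. -/
inductive Ta (I J K : Type) : Type
  | t1 (i : I) : Ta I J K
  | t2 (j : J) : Ta I J K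
  | t3 (k : K) : Ta I J K
  | g1 (i : I) : Ta I J K
  | g2 (i : I) : Ta I J K
  | g3 (i : I) : Ta I J K
  | h1 (j : J) : Ta I J K
  | h2 (j : J) : Ta I J K
  | h3 (j : J) : Ta I J K
  | s1 (k : K) : Ta I J K
  | s2 (k : K) : Ta I J K
  | s3 (k : K) : Ta I J K
  deriving DecidableEq

/-- The triangles of the second decomposition. -/
inductive Tb (I J K : Type) : Type
  | t1 (i : I) : Tb I J K
  | t2 (j : J) : Tb I J K
  | t3 (k : K) : Tb I J K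
  | g1 (i : I) : Tb I J K
  | g2 (i : I) : Tb I J K
  | g3 (i : I) : Tb I J K
  | h1 (j : J) : Tb I J K
  | h2 (j : J) : Tb I J K
  | h3 (j : J) : Tb I J K
  | s1 (k : K) : Tb I J K
  | s2 (k : K) : Tb I J K
  | s3 (k : K) : Tb I J K
  | j0 (i : I) : Tb I J K
  deriving DecidableEq

/-- `Vx` as a sum. -/
def vxE (I J K : Type) : Unit ⊕ (I × Fin 5) ⊕ (J × Fin 3) ⊕ (K × Fin 3) ≃ Vx I J K where
  toFun
    | Sum.inl _ => Vx.x0
    | Sum.inr (Sum.inl (i, 0)) => Vx.y i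
    | Sum.inr (Sum.inl (i, 1)) => Vx.z i
    | Sum.inr (Sum.inl (i, 2)) => Vx.wA i
    | Sum.inr (Sum.inl (i, 3)) => Vx.pR i
    | Sum.inr (Sum.inl (i, 4)) => Vx.qR i
    | Sum.inr (Sum.inr (Sum.inl (j, 0))) => Vx.wB j
    | Sum.inr (Sum.inr (Sum.inl (j, 1))) => Vx.pC j
    | Sum.inr (Sum.inr (Sum.inl (j, 2))) => Vx.qC j
    | Sum.inr (Sum.inr (Sum.inr (k, 0))) => Vx.wC k
    | Sum.inr (Sum.inr (Sum.inr (k, 1))) => Vx.pS k
    | Sum.inr (Sum.inr (Sum.inr (k, 2))) => Vx.qS k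
  invFun
    | Vx.x0 => Sum.inl ()
    | Vx.y i => Sum.inr (Sum.inl (i, 0))
    | Vx.z i => Sum.inr (Sum.inl (i, 1))
    | Vx.wA i => Sum.inr (Sum.inl (i, 2))
    | Vx.pR i => Sum.inr (Sum.inl (i, 3))
    | Vx.qR i => Sum.inr (Sum.inl (i, 4))
    | Vx.wB j => Sum.inr (Sum.inr (Sum.inl (j, 0)))
    | Vx.pC j => Sum.inr (Sum.inr (Sum.inl (j, 1)))
    | Vx.qC j => Sum.inr (Sum.inr (Sum.inl (j, 2)))
    | Vx.wC k => Sum.inr (Sum.inr (Sum.inr (k, 0)))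
    | Vx.pS k => Sum.inr (Sum.inr (Sum.inr (k, 1)))
    | Vx.qS k => Sum.inr (Sum.inr (Sum.inr (k, 2)))
  left_inv x := by
    rcases x with _ | ⟨i, a⟩ | ⟨j, a⟩ | ⟨k, a⟩
    · rfl
    · fin_cases a <;> rfl
    · fin_cases a <;> rfl
    · fin_cases a <;> rfl
  right_inv x := by cases x <;> rfl

instance {I J K : Type} [Fintype I] [Fintype J] [Fintype K] : Fintype (Vx I J K) :=
  Fintype.ofEquiv _ (vxE I J K)

theorem card_Vx (I J K : Type) [Fintype I] [Fintype J] [Fintype K] :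
    Fintype.card (Vx I J K) = 1 + 5 * Fintype.card I + 3 * Fintype.card J + 3 * Fintype.card K := by
  rw [← Fintype.card_congr (vxE I J K)]
  simp
  ring

/-- `Ta` as a sum. -/
def taE (I J K : Type) : (I × Fin 4) ⊕ (J × Fin 4) ⊕ (K × Fin 4) ≃ Ta I J K where
  toFun
    | Sum.inl (i, 0) => Ta.t1 i
    | Sum.inl (i, 1) => Ta.g1 i
    | Sum.inl (i, 2) => Ta.g2 i
    | Sum.inl (i, 3) => Ta.g3 i
    | Sum.inr (Sum.inl (j, 0)) => Ta.t2 j
    | Sum.inr (Sum.inl (j, 1)) => Ta.h1 j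
    | Sum.inr (Sum.inl (j, 2)) => Ta.h2 j
    | Sum.inr (Sum.inl (j, 3)) => Ta.h3 j
    | Sum.inr (Sum.inr (k, 0)) => Ta.t3 k
    | Sum.inr (Sum.inr (k, 1)) => Ta.s1 k
    | Sum.inr (Sum.inr (k, 2)) => Ta.s2 k
    | Sum.inr (Sum.inr (k, 3)) => Ta.s3 k
  invFun
    | Ta.t1 i => Sum.inl (i, 0)
    | Ta.g1 i => Sum.inl (i, 1)
    | Ta.g2 i => Sum.inl (i, 2)
    | Ta.g3 i => Sum.inl (i, 3)
    | Ta.t2 j => Sum.inr (Sum.inl (j, 0))
    | Ta.h1 j => Sum.inr (Sum.inl (j, 1))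
    | Ta.h2 j => Sum.inr (Sum.inl (j, 2))
    | Ta.h3 j => Sum.inr (Sum.inl (j, 3))
    | Ta.t3 k => Sum.inr (Sum.inr (k, 0))
    | Ta.s1 k => Sum.inr (Sum.inr (k, 1))
    | Ta.s2 k => Sum.inr (Sum.inr (k, 2))
    | Ta.s3 k => Sum.inr (Sum.inr (k, 3))
  left_inv x := by
    rcases x with ⟨i, a⟩ | ⟨j, a⟩ | ⟨k, a⟩ <;> fin_cases a <;> rfl
  right_inv x := by cases x <;> rfl

instance {I J K : Type} [Fintype I] [Fintype J] [Fintype K] : Fintype (Ta I J K) :=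
  Fintype.ofEquiv _ (taE I J K)

theorem card_Ta (I J K : Type) [Fintype I] [Fintype J] [Fintype K] :
    Fintype.card (Ta I J K) = 4 * Fintype.card I + 4 * Fintype.card J + 4 * Fintype.card K := by
  rw [← Fintype.card_congr (taE I J K)]
  simp
  ring

/-- `Tb` is a sum. -/
def tbE (I J K : Type) : (Ta I J K) ⊕ I ≃ Tb I J K where
  toFun
    | Sum.inl (Ta.t1 i) => Tb.t1 i
    | Sum.inl (Ta.t2 i) => Tb.t2 i
    | Sum.inl (Ta.t3 i) => Tb.t3 i
    | Sum.inl (Ta.g1 i) => Tb.g1 i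
    | Sum.inl (Ta.g2 i) => Tb.g2 i
    | Sum.inl (Ta.g3 i) => Tb.g3 i
    | Sum.inl (Ta.h1 i) => Tb.h1 i
    | Sum.inl (Ta.h2 i) => Tb.h2 i
    | Sum.inl (Ta.h3 i) => Tb.h3 i
    | Sum.inl (Ta.s1 i) => Tb.s1 i
    | Sum.inl (Ta.s2 i) => Tb.s2 i
    | Sum.inl (Ta.s3 i) => Tb.s3 i
    | Sum.inr i => Tb.j0 i
  invFun
    | Tb.t1 i => Sum.inl (Ta.t1 i)
    | Tb.t2 i => Sum.inl (Ta.t2 i)
    | Tb.t3 i => Sum.inl (Ta.t3 i)
    | Tb.g1 i => Sum.inl (Ta.g1 i)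
    | Tb.g2 i => Sum.inl (Ta.g2 i)
    | Tb.g3 i => Sum.inl (Ta.g3 i)
    | Tb.h1 i => Sum.inl (Ta.h1 i)
    | Tb.h2 i => Sum.inl (Ta.h2 i)
    | Tb.h3 i => Sum.inl (Ta.h3 i)
    | Tb.s1 i => Sum.inl (Ta.s1 i)
    | Tb.s2 i => Sum.inl (Ta.s2 i)
    | Tb.s3 i => Sum.inl (Ta.s3 i)
    | Tb.j0 i => Sum.inr i
  left_inv x := by
    rcases x with x | x
    · cases x <;> rfl
    · rfl
  right_inv x := by cases x <;> rfl

instance {I J K : Type} [Fintype I] [Fintype J] [Fintype K] : Fintype (Tb I J K) :=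
  Fintype.ofEquiv _ (tbE I J K)

/-- all vertices: old ones and new ones -/
abbrev Wx (O I J K : Type) : Type := O ⊕ Vx I J K

section

variable {O I J K : Type}

/-- an old vertex -/
abbrev ol (o : O) : Wx O I J K := Sum.inl o

/-- a new vertex -/
abbrev nw (v : Vx I J K) : Wx O I J K := Sum.inr v

/-- The triangles (row, column, symbol) of the first decomposition. -/
def tA (D : Dt O I J K) : Ta I J K → Wx O I J K × Wx O I J K × Wx O I J K
  | Ta.t1 i => (nw Vx.x0, nw (Vx.y i), nw (Vx.wA i))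
  | Ta.t2 j => (nw (Vx.wB j), nw (Vx.y (D.Q j)), nw (Vx.z (D.Q j)))
  | Ta.t3 k => (nw Vx.x0, nw (Vx.wC k), nw (Vx.z (D.Q (D.S k))))
  | Ta.g1 i => (ol (D.rA i), nw (Vx.pR i), nw (Vx.wA i))
  | Ta.g2 i => (ol (D.rA i), nw (Vx.wC (D.R i)), nw (Vx.qR i))
  | Ta.g3 i => (nw Vx.x0, nw (Vx.pR i), nw (Vx.qR i))
  | Ta.h1 j => (nw (Vx.wB j), ol (D.cB j), nw (Vx.pC j))
  | Ta.h2 j => (nw (Vx.qC j), ol (D.cB j), nw (Vx.wA (D.Q j)))
  | Ta.h3 j => (nw (Vx.qC j), nw (Vx.y (D.Q j)), nw (Vx.pC j))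
  | Ta.s1 k => (nw (Vx.pS k), nw (Vx.wC k), ol (D.sC k))
  | Ta.s2 k => (nw (Vx.wB (D.S k)), nw (Vx.qS k), ol (D.sC k))
  | Ta.s3 k => (nw (Vx.pS k), nw (Vx.qS k), nw (Vx.z (D.Q (D.S k))))

/-- The triangles (row, column, symbol) of the second decomposition. -/
def tB (D : Dt O I J K) : Tb I J K → Wx O I J K × Wx O I J K × Wx O I J K
  | Tb.t1 i => (ol (D.rA i), ol (D.cA i), nw (Vx.wA i))
  | Tb.t2 j => (nw (Vx.wB j), ol (D.cB j), ol (D.sB j))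
  | Tb.t3 k => (ol (D.rC k), nw (Vx.wC k), ol (D.sC k))
  | Tb.g1 i => (nw Vx.x0, nw (Vx.pR i), nw (Vx.wA i))
  | Tb.g2 i => (nw Vx.x0, nw (Vx.wC (D.R i)), nw (Vx.qR i))
  | Tb.g3 i => (ol (D.rA i), nw (Vx.pR i), nw (Vx.qR i))
  | Tb.h1 j => (nw (Vx.wB j), nw (Vx.y (D.Q j)), nw (Vx.pC j))
  | Tb.h2 j => (nw (Vx.qC j), nw (Vx.y (D.Q j)), nw (Vx.wA (D.Q j)))
  | Tb.h3 j => (nw (Vx.qC j), ol (D.cB j), nw (Vx.pC j))
  | Tb.s1 k => (nw (Vx.pS k), nw (Vx.wC k), nw (Vx.z (D.Q (D.S k))))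
  | Tb.s2 k => (nw (Vx.wB (D.S k)), nw (Vx.qS k), nw (Vx.z (D.Q (D.S k))))
  | Tb.s3 k => (nw (Vx.pS k), nw (Vx.qS k), ol (D.sC k))
  | Tb.j0 i => (nw Vx.x0, nw (Vx.y i), nw (Vx.z i))

end

/-- the label of a vertex -/
def lab {n : ℕ} {F : Finset (Fin n)} {I J K : Type} (g : Vx I J K → Fin n)
    (w : Wx {x // x ∈ F} I J K) : Fin n := Sum.elim Subtype.val g w

/-- the labels of a triangle -/
def lb3 {n : ℕ} {F : Finset (Fin n)} {I J K : Type} (g : Vx I J K → Fin n)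
    (T : Wx {x // x ∈ F} I J K × Wx {x // x ∈ F} I J K × Wx {x // x ∈ F} I J K) :
    Fin n × Fin n × Fin n := (lab g T.1, lab g T.2.1, lab g T.2.2)

end Pool.Agent.Helper24.IA
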