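import Pool.Agent.Helper24.IA.Defs

/-!
# Project IA (MP_953b28_co), part A: absorbers.  Statements with complete proofs

Every module `X` proves `theorem hX (hypotheses as listed) : StX`.  In a module file: `import Pool.Agent.Helper24.IA.St`,
`open Finset`, `open Pool.Agent.Helper93.IA Pool.Agent.Helper24.IA`.
-/

set_option autoImplicit false

namespace Pool.Agent.Helper24.IA

open Finset
open Pool.Agent.Helper93.IA

/-- PAI (60 lines): pairing of edges at a vertex.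
PROOF. `X ≃ Σ v, {e ∈ X | e.1 = v}` (`Equiv.sigmaFiberEquiv` for `f x = x.1.1`, symm) and `Y ≃ Σ v, {e ∈ Y | e.2 = v}`; for every `v` the two
fibres have the same number of elements by hypothesis (`Fintype.card_congr`/`Fintype.card_of_subtype`, `d1 X v = (X.filter fun e => e.1 = v).card`), so there
is an equivalence (`Fintype.equivOfCardEq`); `Equiv.sigmaCongrRight`. -/
def StPAI : Prop := ∀ (n : ℕ) (X Y : Finset (Fin n × Fin n)), (∀ v, d1 X v = d2 Y v) →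
  ∃ E : {e // e ∈ X} ≃ {e // e ∈ Y}, ∀ e, (E e).1.2 = e.1.1

/-- EMB (60 lines): greedy choice of distinct labels with a rank function.
PROOF. Claim: for every `S : Finset V` with `∀ v ∈ S, ∀ u, rk u < rk v → u ∈ S` there is `g : V → Fin n`, injective on `S`, with
`g v ∉ F` and `g v ∉ Fb v g` for `v ∈ S`. Induction on `S.card`. `S` empty: any `g` (`0 < n`). Otherwise let `v ∈ S` have maximal rank
(`Finset.exists_max_image`), `S' = S.erase v`; `S'` has the closure property (if `rk u < rk w`, `w ∈ S'`, then `u ∈ S` and `u ≠ v` because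
`rk w ≤ rk v`). Take `g` for `S'`. The set `F ∪ Fb v g ∪ S'.image g` has at most `|F| + D + |S'| < n` elements
(`|S'| < |S| ≤ Fintype.card V`), so there is `x` outside of it (`Finset.exists_mem_notMem_of_card_lt_card` with `univ`, or `by_contra` and
`Finset.card_le_card`). `g' = Function.update g v x`. For `w ∈ S'`: `w ≠ v`, `g' w = g w`, and `Fb w g' = Fb w g`, since `g'`, `g` agree at all
`u` with `rk u < rk w` (`u ≠ v` because `rk w ≤ rk v`). `Fb v g' = Fb v g` in the same way. Apply the claim to `S = univ`. -/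
def StEMB : Prop := ∀ (V : Type) [Fintype V] [DecidableEq V] (n : ℕ) (F : Finset (Fin n)) (D : ℕ)
  (rk : V → ℕ) (Fb : V → (V → Fin n) → Finset (Fin n)), 0 < n → (∀ v g, (Fb v g).card ≤ D) →
  (∀ v g g', (∀ u, rk u < rk v → g u = g' u) → Fb v g = Fb v g') →
  D + F.card + Fintype.card V ≤ n →
  ∃ g : V → Fin n, Function.Injective g ∧ ∀ v, g v ∉ F ∧ g v ∉ Fb v g

/-- CHO (150 lines): choice of the new vertices.  Hypotheses: hEMB.
PROOF. Sets of non-neighbours (each has at most `d` elements: they are the sets in `m1 A univ i`, `m2 A univ i`, ...):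
`nA1 a = {b | (a, b) ∉ A}`, `nA2 b = {a | (a, b) ∉ A}`, `nB1`, `nB2`, `nC1`, `nC2` in the same way (`univ.filter`). StEMB for `V = Vx I J K`, `D = 4 * d`,
`rk`: `x0 ↦ 0`, `y ↦ 1`, `z ↦ 2`, `wA, wB, wC ↦ 3`, `pR, pC, pS ↦ 4`, `qR, qC, qS ↦ 5`, and `Fb v g` =
`x0: ∅`
`y i: nA1 (g x0)`
`z i: nB1 (g (y i)) ∪ nC2 (g x0)`
`wA i (symbol): nB1 (cA i) ∪ nC2 (rA i) ∪ nB1 (g (y i)) ∪ nC2 (g x0)`
`wB j (row): nA2 (cB j) ∪ nC1 (sB j) ∪ nA2 (g (y (Q j))) ∪ nC1 (g (z (Q j)))`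
`wC k (column): nA1 (rC k) ∪ nB2 (sC k) ∪ nA1 (g x0) ∪ nB2 (g (z (Q (S k))))`
`pR i (column): nA1 (rA i) ∪ nA1 (g x0) ∪ nB2 (g (wA i))`
`qR i (symbol): nC2 (rA i) ∪ nC2 (g x0) ∪ nB1 (g (pR i)) ∪ nB1 (g (wC (R i)))`
`pC j (symbol): nB1 (cB j) ∪ nB1 (g (y (Q j))) ∪ nC2 (g (wB j))`
`qC j (row): nA2 (cB j) ∪ nA2 (g (y (Q j))) ∪ nC1 (g (pC j)) ∪ nC1 (g (wA (Q j)))`
`pS k (row): nC1 (sC k) ∪ nC1 (g (z (Q (S k)))) ∪ nA2 (g (wC k))`
`qS k (column): nB2 (sC k) ∪ nB2 (g (z (Q (S k)))) ∪ nA1 (g (pS k)) ∪ nA1 (g (wB (S k)))`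
(old vertices stand for their labels, `(D.cA i).1` etc.). `(Fb v g).card ≤ 4 * d` by `Finset.card_union_le`; `Fb v g` only uses the values of `g` at vertices of smaller
rank. `card_Vx` gives the size of `V`. For each of the 12 kinds `t` of triangles the three adjacencies are three of the conditions
`g v ∉ Fb v g`: the A-edges are `y`(i): `(x0, y i)`; `(wB j, y (Q j))`, `(x0, wC k)`, `(rA i, pR i)`, `(rA i, wC (R i))` (condition of `wC k` with `k = R i`, `D.hR i`),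
`(x0, pR i)`, `(wB j, cB j)`, `(qC j, cB j)`, `(qC j, y (Q j))`, `(pS k, wC k)`, `(wB (S k), qS k)`, `(pS k, qS k)`; the B-edges are `(y i, wA i)`, `(y (Q j), z (Q j))`,
`(wC k, z (Q (S k)))`, `(pR i, wA i)`, `(wC (R i), qR i)`, `(pR i, qR i)`, `(cB j, pC j)`, `(cB j, wA (Q j))` (condition of `wA i` with `i = Q j`, `D.hQ j`),
`(y (Q j), pC j)`, `(wC k, sC k)`, `(qS k, sC k)`, `(qS k, z (Q (S k)))`; the C-edges are `(wA i, x0)`, `(z (Q j), wB j)`, `(z i, x0)` (with `i = Q (S k)`), `(wA i, rA i)`, `(qR i, rA i)`,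
`(qR i, x0)`, `(pC j, wB j)`, `(wA (Q j), qC j)`, `(pC j, qC j)`, `(sC k, pS k)`, `(sC k, wB (S k))` (condition of `wB j` with `j = S k`, `D.hS k`), `(z (Q (S k)), pS k)`.
(`lab g (ol o) = o.1`, `lab g (nw v) = g v` by `rfl`.) -/
def StCHO : Prop := ∀ (I J K : Type) [Fintype I] [Fintype J] [Fintype K] [DecidableEq I] [DecidableEq J]
  [DecidableEq K] (n d : ℕ) (A B C : Finset (Fin n × Fin n)) (F : Finset (Fin n))
  (D : Dt {x // x ∈ F} I J K),
  (∀ i, m1 A univ i ≤ d ∧ m2 A univ i ≤ d ∧ m1 B univ i ≤ d ∧ m2 B univ i ≤ d ∧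
    m1 C univ i ≤ d ∧ m2 C univ i ≤ d) → 0 < n →
  4 * d + F.card + (1 + 5 * Fintype.card I + 3 * Fintype.card J + 3 * Fintype.card K) ≤ n →
  ∃ g : Vx I J K → Fin n, Function.Injective g ∧ (∀ v, g v ∉ F) ∧
    ∀ t : Ta I J K, eA (lb3 g (tA D t)) ∈ A ∧ eB (lb3 g (tA D t)) ∈ B ∧ eC (lb3 g (tA D t)) ∈ C

/-- IN1 (60 lines): the edges of the first family are distinct.
PROOF. For each of the three claims: `intro t t' h; cases t <;> cases t' <;> simp [eA, tA] at h ⊢`, and the remaining cases by the injectivity of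
`D.R`, `D.Q`, `D.S` (`EmbeddingLike.apply_eq_iff_eq` is a simp lemma). In each case with equal edges some new vertex in the edge determines the index. -/
def StIN1 : Prop := ∀ (O I J K : Type) (D : Dt O I J K),
  Function.Injective (fun t => eA (tA D t)) ∧ Function.Injective (fun t => eB (tA D t)) ∧
    Function.Injective (fun t => eC (tA D t))

/-- IN2 (80 lines): the edges of the second family are distinct.
PROOF. As IN1; for the kinds `t1`, `t2`, `t3` against themselves use `D.iA`, `D.iB`, `D.iC` in one of the three claims. -/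
def StIN2 : Prop := ∀ (O I J K : Type) (D : Dt O I J K),
  Function.Injective (fun t => eA (tB D t)) ∧ Function.Injective (fun t => eB (tB D t)) ∧
    Function.Injective (fun t => eC (tB D t))

/-- IMG (100 lines): the edges of the second family are the edges of the first family and of `L`.
PROOF. (←) and (→) by cases on `t`; partners: A: `t1 ↔ L`, `j0 i ↔ t1 i`, `h1 j ↔ t2 j`, `g2 i ↔ t3 (R i)`, `g3 i ↔ g1 i`, `t3 (R i) ↔ g2 i` (`D.hR`; for
`k`: `i = R.symm k`), `g1 i ↔ g3 i`, `t2 j ↔ h1 j`, `h3 j ↔ h2 j`, `h2 j ↔ h3 j`, `s1 k ↔ s1 k`, `s2 k ↔ s2 k`, `s3 k ↔ s3 k` (second family on the left). B: `t2 ↔ L`, `t1 (Q j) ↔ h2 j` (`D.hQ`), `t3 k ↔ s1 k`,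
`g1 ↔ g1`, `g2 ↔ g2`, `g3 ↔ g3`, `h1 j ↔ h3 j`, `h2 j ↔ t1 (Q j)`, `h3 j ↔ h1 j`, `s1 k ↔ t3 k`, `s2 k ↔ s3 k`, `s3 k ↔ s2 k`, `j0 (Q j) ↔ t2 j`. C: `t3 ↔ L`, `t1 i ↔ g1 i`, `t2 (S k) ↔ s2 k` (`D.hS`), `g1 i ↔ t1 i`,
`g2 i ↔ g3 i`, `g3 i ↔ g2 i`, `h1 j ↔ h1 j`, `h2 j ↔ h2 j`, `h3 j ↔ h3 j`, `s1 k ↔ s3 k`, `s2 k ↔ t2 (S k)`, `s3 k ↔ s1 k`, `j0 (Q (S k)) ↔ t3 k`. -/
def StIMG : Prop := ∀ (O I J K : Type) (D : Dt O I J K),
  (∀ e, (∃ t, eA (tB D t) = e) ↔ (∃ t, eA (tA D t) = e) ∨ ∃ i, e = (ol (D.rA i), ol (D.cA i))) ∧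
  (∀ e, (∃ t, eB (tB D t) = e) ↔ (∃ t, eB (tA D t) = e) ∨ ∃ j, e = (ol (D.cB j), ol (D.sB j))) ∧
  (∀ e, (∃ t, eC (tB D t) = e) ↔ (∃ t, eC (tA D t) = e) ∨ ∃ k, e = (ol (D.sC k), ol (D.rC k)))

end Pool.Agent.Helper24.IA
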